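import Pool.Agent.H81Sel.Main

namespace Pool.Agent.Results.MP_8e5827_nt.FunctionFieldTwo

/-- Over every global function field (a finite extension `F` of `k(t)`, `k` a finite field of any
characteristic), the average size of the 2-Selmer group of elliptic curves ordered by height
exists and equals 3. -/
theorem result (k F : Type) [Field k] [Finite k] [Field F] [Algebra (RatFunc k) F]
    [FiniteDimensional (RatFunc k) F] : SelStmt.SelmerAverage F 2 3 :=
  SelAvg.FF.selmerAverage_two k F

end Pool.Agent.Results.MP_8e5827_nt.FunctionFieldTwo
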